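import Pool.Agent.Helper84.OV.Zero

/-!
# Project OV, packet OV-HTN: norms and degrees of the Wronskians
-/

set_option autoImplicit false

open Finset

namespace Pool.Agent.Helper45.OV.HTN

open Pool.Agent.Helper84.OV
open scoped Polynomial

/-- degrees at most `n` and norm at most `h` -/
def P (n h : ℕ) (S : R2) : Prop := S.natDegree ≤ n ∧ DX n S ∧ nrm S ≤ h

lemma P.mono {n m h k : ℕ} {S : R2} (hS : P n h S) (h1 : n ≤ m) (h2 : h ≤ k) : P m k S :=
  ⟨hS.1.trans h1, hS.2.1.mono h1, hS.2.2.trans h2⟩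

lemma P.mul {n m h k : ℕ} {S T : R2} (hS : P n h S) (hT : P m k T) : P (n + m) (h * k) (S * T) :=
  ⟨Polynomial.natDegree_mul_le.trans (add_le_add hS.1 hT.1), hS.2.1.mul hT.2.1,
    (nrm_mul _ _).trans (Nat.mul_le_mul hS.2.2 hT.2.2)⟩

lemma P.add {n h k : ℕ} {S T : R2} (hS : P n h S) (hT : P n k T) : P n (h + k) (S + T) :=
  ⟨(Polynomial.natDegree_add_le _ _).trans (max_le hS.1 hT.1), hS.2.1.add hT.2.1,
    (nrm_add _ _).trans (add_le_add hS.2.2 hT.2.2)⟩

lemma P.sub {n h k : ℕ} {S T : R2} (hS : P n h S) (hT : P n k T) : P n (h + k) (S - T) :=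
  ⟨(Polynomial.natDegree_sub_le _ _).trans (max_le hS.1 hT.1), hS.2.1.sub hT.2.1,
    (nrm_sub _ _).trans (add_le_add hS.2.2 hT.2.2)⟩

lemma natDegree_dX (S : R2) (n : ℕ) (h : S.natDegree ≤ n) : (dX S).natDegree ≤ n := by
  rw [Polynomial.natDegree_le_iff_coeff_eq_zero]
  intro j hj
  rw [coeff_dX, Polynomial.coeff_eq_zero_of_natDegree_lt (h.trans_lt hj), map_zero]

lemma P.dX {n h : ℕ} {S : R2} (hS : P n h S) : P n (n * h) (dX S) :=
  ⟨natDegree_dX S n hS.1, hS.2.1.dX,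
    (nrm_dX S n hS.2.1).trans (Nat.mul_le_mul_left _ hS.2.2)⟩

lemma P.deriv {n h : ℕ} {S : R2} (hS : P n h S) : P n (n * h) (Polynomial.derivative S) :=
  ⟨(Polynomial.natDegree_derivative_le _).trans ((Nat.sub_le _ _).trans hS.1), hS.2.1.deriv,
    (nrm_deriv S n hS.1).trans (Nat.mul_le_mul_left _ hS.2.2)⟩

lemma P.pow {n h : ℕ} {S : R2} (hS : P n h S) (k : ℕ) : P (k * n) (h ^ k) (S ^ k) := by
  induction k with
  | zero =>
    rw [pow_zero, pow_zero, Nat.zero_mul]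
    exact ⟨by simp, DX_one, nrm_one.le⟩
  | succ k ih =>
    rw [pow_succ, pow_succ, Nat.succ_mul]
    exact ih.mul hS

/-- separate degrees -/
def Q (a b h : ℕ) (S : R2) : Prop := S.natDegree ≤ a ∧ DX b S ∧ nrm S ≤ h

lemma Q.mul {a b h a' b' h' : ℕ} {S T : R2} (hS : Q a b h S) (hT : Q a' b' h' T) :
    Q (a + a') (b + b') (h * h') (S * T) :=
  ⟨Polynomial.natDegree_mul_le.trans (add_le_add hS.1 hT.1), hS.2.1.mul hT.2.1,
    (nrm_mul _ _).trans (Nat.mul_le_mul hS.2.2 hT.2.2)⟩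

lemma Q.sub {a b h a' b' h' : ℕ} {S T : R2} (hS : Q a b h S) (hT : Q a' b' h' T) :
    Q (max a a') (max b b') (h + h') (S - T) :=
  ⟨(Polynomial.natDegree_sub_le _ _).trans (max_le_max hS.1 hT.1),
    (hS.2.1.mono (le_max_left _ _)).sub (hT.2.1.mono (le_max_right _ _)),
    (nrm_sub _ _).trans (add_le_add hS.2.2 hT.2.2)⟩

lemma Q.pow {a b h : ℕ} {S : R2} (hS : Q a b h S) (k : ℕ) : Q (k * a) (k * b) (h ^ k) (S ^ k) := by
  induction k with
  | zero =>
    rw [pow_zero, pow_zero, Nat.zero_mul, Nat.zero_mul]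
    exact ⟨by simp, DX_one, nrm_one.le⟩
  | succ k ih =>
    rw [pow_succ, pow_succ, Nat.succ_mul, Nat.succ_mul]
    exact ih.mul hS

lemma Q.toP {a b h n k : ℕ} {S : R2} (hS : Q a b h S) (h1 : a ≤ n) (h2 : b ≤ n) (h3 : h ≤ k) :
    P n k S :=
  ⟨hS.1.trans h1, hS.2.1.mono h2, hS.2.2.trans h3⟩

lemma qX : Q 0 1 1 XX := ⟨by unfold XX; simp, DX_XX, nrm_XX.le⟩
lemma qY : Q 1 0 1 YY := ⟨by unfold YY; simp, DX_YY, nrm_YY.le⟩
lemma q1 : Q 0 0 1 (1 : R2) := ⟨by simp, DX_one, nrm_one.le⟩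
lemma q2 : Q 0 0 2 (2 : R2) := by
  have h : (2 : R2) = 1 + 1 := by norm_num
  refine ⟨by simp, ?_, ?_⟩
  · rw [h]
    exact DX_one.add DX_one
  · rw [h]
    refine (nrm_add _ _).trans ?_
    rw [nrm_one]

lemma pE : P 3 16 EE := by
  unfold EE
  exact (((((q2.mul qX).mul qY).mul (q1.sub qX)).mul (q1.sub qY)).mul (qX.sub qY)).toP
    (by norm_num) (by norm_num) (by norm_num)

lemma pa : P 3 4 (YY ^ 2 * (1 - XX) * (1 - YY)) :=
  (((qY.pow 2).mul (q1.sub qX)).mul (q1.sub qY)).toP (by norm_num) (by norm_num) (by norm_num)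

lemma pb : P 3 4 (XX * YY * (1 - YY) ^ 2) :=
  ((qX.mul qY).mul ((q1.sub qY).pow 2)).toP (by norm_num) (by norm_num) (by norm_num)

lemma pc : P 3 4 (XX * YY * (1 - XX) ^ 2) :=
  ((qX.mul qY).mul ((q1.sub qX).pow 2)).toP (by norm_num) (by norm_num) (by norm_num)

lemma pd : P 3 4 (XX ^ 2 * (1 - XX) * (1 - YY)) :=
  (((qX.pow 2).mul (q1.sub qX)).mul (q1.sub qY)).toP (by norm_num) (by norm_num) (by norm_num)

lemma naX_P {n h : ℕ} (hn : 1 ≤ n) {B : Fin 3 → R2} (hB : ∀ i, P n h (B i)) (i : Fin 3) :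
    P (3 + n) (20 * n * h) (naX B i) := by
  have h1 : 16 * (n * h) + 4 * h ≤ 20 * n * h := by nlinarith
  have h0 : 16 * (n * h) ≤ 20 * n * h := by nlinarith
  fin_cases i
  · exact (pE.mul (hB 0).dX).mono le_rfl h0
  · exact ((pE.mul (hB 1).dX).add (pa.mul (hB 1))).mono le_rfl h1
  · exact ((pE.mul (hB 2).dX).add (pb.mul (hB 2))).mono le_rfl h1

lemma naY_P {n h : ℕ} (hn : 1 ≤ n) {B : Fin 3 → R2} (hB : ∀ i, P n h (B i)) (i : Fin 3) :
    P (3 + n) (20 * n * h) (naY B i) := by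
  have h1 : 16 * (n * h) + 4 * h ≤ 20 * n * h := by nlinarith
  have h0 : 16 * (n * h) ≤ 20 * n * h := by nlinarith
  fin_cases i
  · exact (pE.mul (hB 0).deriv).mono le_rfl h0
  · exact ((pE.mul (hB 1).deriv).sub (pc.mul (hB 1))).mono le_rfl h1
  · exact ((pE.mul (hB 2).deriv).sub (pd.mul (hB 2))).mono le_rfl h1

lemma naD_P {n h R g : ℕ} {G : R2} (hG : P R g G) (hn : 1 ≤ n) {B : Fin 3 → R2}
    (hB : ∀ i, P n h (B i)) (i : Fin 3) : P (n + 3 + R) (40 * R * g * n * h) (naD G B i) := by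
  unfold naD
  refine ((hG.deriv.mul (naX_P hn hB i)).sub (hG.dX.mul (naY_P hn hB i))).mono (by omega) ?_
  apply le_of_eq
  ring

lemma w2_P {n m h k : ℕ} {a b : Fin 3 → R2} (ha : ∀ i, P n h (a i)) (hb : ∀ i, P m k (b i))
    (i j : Fin 3) : P (n + m) (2 * (h * k)) (w2 a b i j) := by
  unfold w2
  refine (((ha i).mul (hb j)).sub (((hb i).mul (ha j)).mono (by omega) le_rfl)).mono le_rfl ?_
  apply le_of_eq
  ring

lemma w3_P {n m l h k r : ℕ} {a b c : Fin 3 → R2} (ha : ∀ i, P n h (a i)) (hb : ∀ i, P m k (b i))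
    (hc : ∀ i, P l r (c i)) : P (n + (m + l)) (6 * (h * (k * r))) (w3 a b c) := by
  unfold w3
  refine ((((ha 0).mul (((hb 1).mul (hc 2)).sub ((hb 2).mul (hc 1)))).sub
    ((ha 1).mul (((hb 0).mul (hc 2)).sub ((hb 2).mul (hc 0))))).add
    ((ha 2).mul (((hb 0).mul (hc 1)).sub ((hb 1).mul (hc 0))))).mono le_rfl ?_
  apply le_of_eq
  ring

/-- **OV-HTN**. -/
theorem t : S_HTN := by
  intro G B R N H hR hN hH hG1 hG2 hB1 hB2 hB3
  have hG : P R (nrm G) G := ⟨hG1, hG2, le_rfl⟩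
  have hB : ∀ i, P N H (B i) := fun i => ⟨hB2 i, hB1 i, hB3 i⟩
  have hD : ∀ i, P (N + 3 + R) (40 * R * nrm G * N * H) (naD G B i) := naD_P hG hN hB
  have hDD : ∀ i, P (N + 3 + R + 3 + R)
      (40 * R * nrm G * (N + 3 + R) * (40 * R * nrm G * N * H)) (naD G (naD G B) i) :=
    naD_P hG (by omega) hD
  have h2 : ∀ i j, P (N + (N + 3 + R)) (2 * (H * (40 * R * nrm G * N * H)))
      (w2 B (naD G B) i j) := w2_P hB hD
  have h3 := w3_P hB hD hDD
  have hNR : N + 3 + R ≤ 5 * (N * R) := by nlinarith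
  have key : 2 * (H * (40 * R * nrm G * N * H)) ≤ (1000 * R * N * nrm G * H) ^ 4 ∧
      6 * (H * (40 * R * nrm G * N * H * (40 * R * nrm G * (N + 3 + R) *
        (40 * R * nrm G * N * H)))) ≤ (1000 * R * N * nrm G * H) ^ 6 := by
    rcases Nat.eq_zero_or_pos (nrm G) with h0 | h0
    · rw [h0]
      simp
    · generalize nrm G = g at h0
      set T := R * N * g * H with hT
      have hT1 : 1 ≤ T := by
        have : 0 < R * N * g * H := by positivity
        omega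
      have hHT : H ≤ T := by
        rw [hT]
        exact Nat.le_mul_of_pos_left _ (by positivity)
      have hRN : g * R * (N * R) * H ≤ T ^ 2 := by
        rw [hT]
        have : g * R * (N * R) * H * 1 ≤ g * R * (N * R) * H * (N * g * H) :=
          Nat.mul_le_mul_left _ (by have : 0 < N * g * H := by positivity
                                    omega)
        calc g * R * (N * R) * H = g * R * (N * R) * H * 1 := by ring
          _ ≤ g * R * (N * R) * H * (N * g * H) := this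
          _ = (R * N * g * H) ^ 2 := by ring
      have e0 : 1000 * R * N * g * H = 1000 * T := by
        rw [hT]
        ring
      rw [e0]
      have e1 : 40 * R * g * N * H = 40 * T := by
        rw [hT]
        ring
      rw [e1]
      have p2 : T ^ 2 ≤ T ^ 4 := Nat.pow_le_pow_right hT1 (by norm_num)
      constructor
      · calc 2 * (H * (40 * T)) ≤ 2 * (T * (40 * T)) := by gcongr
          _ = 80 * T ^ 2 := by ring
          _ ≤ 80 * T ^ 4 := by gcongr
          _ ≤ 1000 ^ 4 * T ^ 4 := Nat.mul_le_mul_right _ (by norm_num)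
          _ = (1000 * T) ^ 4 := by ring
      · calc 6 * (H * (40 * T * (40 * R * g * (N + 3 + R) * (40 * T))))
            = 384000 * (T ^ 2 * (H * R * g * (N + 3 + R))) := by ring
          _ ≤ 384000 * (T ^ 2 * (H * R * g * (5 * (N * R)))) := by gcongr
          _ = 1920000 * (T ^ 2 * (g * R * (N * R) * H)) := by ring
          _ ≤ 1920000 * (T ^ 2 * T ^ 2) := by gcongr
          _ = 1920000 * T ^ 4 := by ring
          _ ≤ 1920000 * T ^ 6 := Nat.mul_le_mul_left _ (Nat.pow_le_pow_right hT1 (by norm_num))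
          _ ≤ 1000 ^ 6 * T ^ 6 := Nat.mul_le_mul_right _ (by norm_num)
          _ = (1000 * T) ^ 6 := by ring
  refine ⟨fun i j => ⟨(h2 i j).1.trans (by omega), (h2 i j).2.2.trans key.1⟩,
    h3.1.trans (by omega), h3.2.2.trans key.2⟩

end Pool.Agent.Helper45.OV.HTN
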